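import Pool.Agent.QSN.StmtsA

set_option autoImplicit false

namespace Pool.Agent.QSN.H27

open Matrix Finset Pool.Agent.QSX Pool.Agent.QSN

theorem csr_key (hwtx : WtxStmt) (X : Dat) (hX : MS X) (l s t : hX.ι) (hs : hX.rt s = hX.rt l)
    (ht : hX.rt t = hX.rt l) : hX.e s * hX.e t = hX.e t * hX.e s := by
  have hz : hX.e s * hX.e t - hX.e t * hX.e s ∈ X.n := X.lie _ (hX.e_mem s) _ (hX.e_mem t)
  have h1 := hwtx X hX ((2 : ℝ) • hX.rt l) _ hz (by
    intro c
    have e1 := hX.wt s c
    have e2 := hX.wt t c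
    rw [hs] at e1
    rw [ht] at e2
    generalize diagonal (c : Fin X.m → ℝ) = D at e1 e2 ⊢
    generalize hX.e s = A at e1 e2 ⊢
    generalize hX.e t = B at e1 e2 ⊢
    have e3 : D * A = A * D + hX.rt l c • A := by rw [← e1]; abel
    have e4 : D * B = B * D + hX.rt l c • B := by rw [← e2]; abel
    have e5 : D * (A * B) = A * B * D + (hX.rt l c • (A * B) + hX.rt l c • (A * B)) := by
      rw [← mul_assoc, e3, add_mul, mul_assoc A D B, e4, mul_add, smul_mul_assoc,
        mul_smul_comm, mul_assoc]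
      abel
    have e6 : D * (B * A) = B * A * D + (hX.rt l c • (B * A) + hX.rt l c • (B * A)) := by
      rw [← mul_assoc, e4, add_mul, mul_assoc B D A, e3, mul_add, smul_mul_assoc,
        mul_smul_comm, mul_assoc]
      abel
    rw [mul_sub, sub_mul, e5, e6, LinearMap.smul_apply, smul_sub, two_smul, add_smul, add_smul]
    abel)
  have hem : {t : hX.ι | hX.rt t = (2 : ℝ) • hX.rt l} = ∅ := by
    refine Set.eq_empty_iff_forall_notMem.2 fun u hu => ?_
    have hu' : hX.rt u = (2 : ℝ) • hX.rt l := hu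
    by_cases h : hX.rt u = hX.rt l
    · rw [h] at hu'
      apply hX.rt_ne l
      have h2 : hX.rt l = hX.rt l + hX.rt l := by
        rw [← two_smul ℝ]; exact hu'
      exact left_eq_add.1 h2
    · exact hX.nonprop u l h 2 hu'
  rw [hem, Set.image_empty, Submodule.span_empty, Submodule.mem_bot] at h1
  exact sub_eq_zero.1 h1

theorem csr (hwtx : WtxStmt) : CsrStmt := by
  intro X hX l x hx y hy
  refine Submodule.span_induction (p := fun x _ => x * y = y * x) ?_ ?_ ?_ ?_ hx
  · rintro _ ⟨s, hs, rfl⟩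
    refine Submodule.span_induction (p := fun y _ => hX.e s * y = y * hX.e s) ?_ ?_ ?_ ?_ hy
    · rintro _ ⟨t, ht, rfl⟩
      exact csr_key hwtx X hX l s t hs ht
    · rw [mul_zero, zero_mul]
    · intro a b _ _ ha hb
      rw [mul_add, add_mul, ha, hb]
    · intro c a _ ha
      rw [mul_smul_comm, smul_mul_assoc, ha]
  · rw [mul_zero, zero_mul]
  · intro a b _ _ ha hb
    rw [mul_add, add_mul, ha, hb]
  · intro c a _ ha
    rw [mul_smul_comm, smul_mul_assoc, ha]

end Pool.Agent.QSN.H27
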